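import Pool.Agent.Helper54.PT.Defs

/-!
# Positive proportion of twists: A4 (number of monic polynomials) and A5 (orthogonality)
-/

set_option autoImplicit false

namespace Pool.Agent.Helper54.PT

open Polynomial Finset Filter Topology

namespace A4A5

variable {F : Type} [Field F]

theorem nm_mul' (Q f g : F[X]) : nm Q (f * g) = nm Q f * nm Q g := by
  unfold nm
  rw [map_mul, map_mul]

theorem nm_ne_zero' {Q f : F[X]} (hQ : Q.Monic) (hQi : Irreducible Q) (h : ¬ Q ∣ f) :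
    nm Q f ≠ 0 := by
  have : Fact (Irreducible Q) := ⟨hQi⟩
  have hfin : Module.Finite F (AdjoinRoot Q) := (AdjoinRoot.powerBasis hQ.ne_zero).finite
  unfold nm
  rw [Algebra.norm_ne_zero_iff]
  intro h0
  exact h (AdjoinRoot.mk_eq_zero.1 h0)

theorem sy_mul' {ℓ : ℕ} {lg : F → ZMod ℓ} (hlg : IsLog ℓ lg) {Q f g : F[X]} (hQ : Q.Monic)
    (hQi : Irreducible Q) (hf : ¬ Q ∣ f) (hg : ¬ Q ∣ g) :
    sy lg Q (f * g) = sy lg Q f + sy lg Q g := by
  unfold sy
  rw [nm_mul', hlg.1 _ _ (nm_ne_zero' hQ hQi hf) (nm_ne_zero' hQ hQi hg)]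

theorem sy_congr' {ℓ : ℕ} {lg : F → ZMod ℓ} {Q f g : F[X]} (h : Q ∣ f - g) :
    sy lg Q f = sy lg Q g := by
  unfold sy nm
  rw [AdjoinRoot.mk_eq_mk.2 h]

theorem sy_one' {ℓ : ℕ} {lg : F → ZMod ℓ} (hlg : IsLog ℓ lg) {Q : F[X]} :
    sy lg Q 1 = 0 := by
  unfold sy nm
  rw [map_one, map_one]
  have h := hlg.1 1 1 one_ne_zero one_ne_zero
  rw [one_mul] at h
  have h2 : lg 1 + 0 = lg 1 + lg 1 := by rw [add_zero]; exact h
  exact (add_left_cancel h2).symm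

theorem exists_sy_eq' [Finite F] {ℓ : ℕ}
    {lg : F → ZMod ℓ} (hlg : IsLog ℓ lg) {Q : F[X]} (hQ : Q.Monic)
    (hQi : Irreducible Q) (c : ZMod ℓ) : ∃ f, ¬ Q ∣ f ∧ sy lg Q f = c := by
  have : Fact (Irreducible Q) := ⟨hQi⟩
  have hfin : Module.Finite F (AdjoinRoot Q) := (AdjoinRoot.powerBasis hQ.ne_zero).finite
  have hf : Finite (AdjoinRoot Q) := Module.finite_of_finite F
  obtain ⟨x, hx, hxc⟩ := hlg.2.2 c
  obtain ⟨y, hy⟩ := FiniteField.norm_surjective F (AdjoinRoot Q) x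
  obtain ⟨f, rfl⟩ := AdjoinRoot.mk_surjective y
  refine ⟨f, ?_, ?_⟩
  · intro hd
    rw [AdjoinRoot.mk_eq_zero.2 hd, Algebra.norm_zero] at hy
    exact hx hy.symm
  · unfold sy nm
    rw [hy, hxc]

theorem coprime_of_ne {P Q : F[X]} (hP : P.Monic) (hPi : Irreducible P) (hQ : Q.Monic)
    (hQi : Irreducible Q) (h : P ≠ Q) : IsCoprime P Q := by
  rw [hPi.coprime_iff_not_dvd]
  intro hd
  have h1 : Associated P Q := hPi.associated_of_dvd hQi hd
  exact h (eq_of_monic_of_associated hP hQ h1)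

/-- the shift -/
noncomputable def sh (W h f : F[X]) : F[X] := f + ((h - 1) * f) %ₘ W

theorem sh_dvd {W h f : F[X]} : W ∣ h * f - sh W h f := by
  have h1 := modByMonic_add_div ((h - 1) * f) W
  refine ⟨((h - 1) * f) /ₘ W, ?_⟩
  unfold sh
  linear_combination -h1

end A4A5

open A4A5

section

variable {F : Type} [Field F] [Finite F]

/-- A4: number of monic polynomials, unique factorisation of degree `k` count -/
theorem card_mon (n : ℕ) : (mon F n).card = Nat.card F ^ n := by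
  classical
  have e : {f // f ∈ mon F n} ≃ degreeLT F n :=
    { toFun := fun f => ⟨f.1 - X ^ n, by
        rw [mem_degreeLT]
        obtain ⟨hm, hd⟩ := mem_mon.1 f.2
        have h1 : f.1.degree = n := by rw [degree_eq_natDegree hm.ne_zero, hd]
        have h2 : f.1.degree = (X ^ n : F[X]).degree := by rw [h1, degree_X_pow]
        have h3 := degree_sub_lt_left h2 hm.ne_zero (by
          rw [hm.leadingCoeff, (monic_X_pow n).leadingCoeff])
        rwa [h1] at h3⟩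
      invFun := fun r => ⟨X ^ n + r.1, by
        have hr := mem_degreeLT.1 r.2
        rw [mem_mon]
        refine ⟨monic_X_pow_add hr, ?_⟩
        rw [natDegree_add_eq_left_of_degree_lt (by rw [degree_X_pow]; exact hr), natDegree_X_pow]⟩
      left_inv := fun f => by
        apply Subtype.ext
        show X ^ n + (f.1 - X ^ n) = f.1
        ring
      right_inv := fun r => by
        apply Subtype.ext
        show X ^ n + r.1 - X ^ n = r.1
        ring }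
  have h1 : (mon F n).card = Nat.card {f // f ∈ mon F n} := by
    rw [Nat.card_eq_fintype_card, Fintype.card_coe]
  rw [h1, Nat.card_congr e, Nat.card_congr (degreeLTEquiv F n).toEquiv, Nat.card_fun,
    Nat.card_eq_fintype_card (α := Fin n), Fintype.card_fin]

/-- A5: orthogonality -/
theorem sum_mon_eq_zero {ℓ : ℕ} [Fact ℓ.Prime] {lg : F → ZMod ℓ} (hlg : IsLog ℓ lg)
    (G : Finset (Prm F)) (g : Prm F → ZMod ℓ) (hne : ∃ Q ∈ G, g Q ≠ 0) (n : ℕ)
    (hn : ∑ Q ∈ G, Q.1.natDegree ≤ n) :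
    ∑ f ∈ mon F n, (open Classical in if ∃ Q ∈ G, Q.1 ∣ f then (0 : ℂ) else
      ee (∑ Q ∈ G, g Q * sy lg Q.1 f)) = 0 := by
  classical
  obtain ⟨Q₀, hQ₀, hg₀⟩ := hne
  -- the modulus
  set W : F[X] := ∏ Q ∈ G, Q.1 with hW
  have hWm : W.Monic := monic_prod_of_monic _ _ fun Q _ => Q.2.1
  have hWd : W.natDegree = ∑ Q ∈ G, Q.1.natDegree := natDegree_prod_of_monic _ _ fun Q _ => Q.2.1
  have hQW : ∀ Q ∈ G, Q.1 ∣ W := fun Q hQ => Finset.dvd_prod_of_mem (fun Q : Prm F => Q.1) hQ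
  -- the multiplier
  obtain ⟨f₀, hf₀, hs₀⟩ := exists_sy_eq' hlg Q₀.2.1 Q₀.2.2 1
  have hcop : IsCoprime Q₀.1 (∏ Q ∈ G.erase Q₀, Q.1) := by
    apply IsCoprime.prod_right
    intro Q hQ
    exact coprime_of_ne Q₀.2.1 Q₀.2.2 Q.2.1 Q.2.2
      fun h => (Finset.mem_erase.1 hQ).1 (Subtype.ext h).symm
  obtain ⟨a, b, hab⟩ := hcop
  set W' : F[X] := ∏ Q ∈ G.erase Q₀, Q.1 with hW'
  set h : F[X] := a * Q₀.1 + b * W' * f₀ with hh
  have h0 : Q₀.1 ∣ h - f₀ := ⟨a * (1 - f₀), by rw [hh]; linear_combination f₀ * hab⟩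
  have h1 : ∀ Q ∈ G, Q ≠ Q₀ → Q.1 ∣ h - 1 := by
    intro Q hQ hne
    have h2 : Q.1 ∣ W' :=
      Finset.dvd_prod_of_mem (fun Q : Prm F => Q.1) (Finset.mem_erase.2 ⟨hne, hQ⟩)
    have h3 : h - 1 = W' * (b * (f₀ - 1)) := by rw [hh]; linear_combination hab
    rw [h3]
    exact Dvd.dvd.mul_right h2 _
  have hQh : ∀ Q ∈ G, ¬ Q.1 ∣ h := by
    intro Q hQ hd
    by_cases hQQ : Q = Q₀
    · subst hQQ
      exact hf₀ ((dvd_sub_right hd).1 h0)
    · have h2 := (dvd_sub_right hd).1 (h1 Q hQ hQQ)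
      exact Q.2.2.not_isUnit (isUnit_of_dvd_one h2)
  have hhW : IsCoprime W h := by
    rw [hW]
    apply IsCoprime.prod_left
    intro Q hQ
    rw [Q.2.2.coprime_iff_not_dvd]
    exact hQh Q hQ
  -- the values
  set φ : F[X] → ℂ := fun f => if ∃ Q ∈ G, Q.1 ∣ f then (0 : ℂ) else
      ee (∑ Q ∈ G, g Q * sy lg Q.1 f) with hφ
  have hφW : ∀ f f' : F[X], W ∣ f - f' → φ f = φ f' := by
    intro f f' hd
    have h2 : (∃ Q ∈ G, Q.1 ∣ f) ↔ ∃ Q ∈ G, Q.1 ∣ f' := by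
      constructor
      · rintro ⟨Q, hQ, hQf⟩
        exact ⟨Q, hQ, (dvd_sub_right hQf).1 ((hQW Q hQ).trans hd)⟩
      · rintro ⟨Q, hQ, hQf⟩
        exact ⟨Q, hQ, (dvd_sub_left hQf).1 ((hQW Q hQ).trans hd)⟩
    have h3 : ∑ Q ∈ G, g Q * sy lg Q.1 f = ∑ Q ∈ G, g Q * sy lg Q.1 f' :=
      Finset.sum_congr rfl fun Q hQ => by rw [sy_congr' ((hQW Q hQ).trans hd)]
    show (if ∃ Q ∈ G, Q.1 ∣ f then (0 : ℂ) else ee (∑ Q ∈ G, g Q * sy lg Q.1 f)) =
      (if ∃ Q ∈ G, Q.1 ∣ f' then (0 : ℂ) else ee (∑ Q ∈ G, g Q * sy lg Q.1 f'))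
    rw [h3]
    by_cases h4 : ∃ Q ∈ G, Q.1 ∣ f
    · rw [if_pos h4, if_pos (h2.1 h4)]
    · rw [if_neg h4, if_neg (fun h5 => h4 (h2.2 h5))]
  have hφh : ∀ f : F[X], φ (h * f) = ee (g Q₀) * φ f := by
    intro f
    show (if ∃ Q ∈ G, Q.1 ∣ h * f then (0 : ℂ) else ee (∑ Q ∈ G, g Q * sy lg Q.1 (h * f))) =
      ee (g Q₀) * (if ∃ Q ∈ G, Q.1 ∣ f then (0 : ℂ) else ee (∑ Q ∈ G, g Q * sy lg Q.1 f))
    by_cases h4 : ∃ Q ∈ G, Q.1 ∣ f
    · have h5 : ∃ Q ∈ G, Q.1 ∣ h * f := by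
        obtain ⟨Q, hQ, hQf⟩ := h4
        exact ⟨Q, hQ, Dvd.dvd.mul_left hQf h⟩
      rw [if_pos h4, if_pos h5, mul_zero]
    · have h5 : ¬ ∃ Q ∈ G, Q.1 ∣ h * f := by
        rintro ⟨Q, hQ, hQf⟩
        rcases Q.2.2.prime.dvd_or_dvd hQf with h6 | h6
        · exact hQh Q hQ h6
        · exact h4 ⟨Q, hQ, h6⟩
      rw [if_neg h4, if_neg h5]
      have h6 : ∑ Q ∈ G, g Q * sy lg Q.1 (h * f) = g Q₀ + ∑ Q ∈ G, g Q * sy lg Q.1 f := by
        have h7 : ∀ Q ∈ G, g Q * sy lg Q.1 (h * f) =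
            (if Q = Q₀ then g Q₀ else 0) + g Q * sy lg Q.1 f := by
          intro Q hQ
          have hQf : ¬ Q.1 ∣ f := fun hd => h4 ⟨Q, hQ, hd⟩
          rw [sy_mul' hlg Q.2.1 Q.2.2 (hQh Q hQ) hQf, mul_add]
          congr 1
          by_cases hQQ : Q = Q₀
          · subst hQQ
            rw [if_pos rfl, sy_congr' h0, hs₀, mul_one]
          · rw [if_neg hQQ, sy_congr' (h1 Q hQ hQQ), sy_one' hlg, mul_zero]
        rw [Finset.sum_congr rfl h7, Finset.sum_add_distrib, Finset.sum_ite_eq' G Q₀, if_pos hQ₀]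
      rw [h6]
      unfold ee
      rw [AddChar.map_add_eq_mul]
  -- the permutation
  have hWn : W.degree ≤ (n : WithBot ℕ) := by
    rw [degree_eq_natDegree hWm.ne_zero, hWd]
    exact_mod_cast hn
  have hmaps : ∀ f ∈ mon F n, sh W h f ∈ mon F n := by
    intro f hf
    obtain ⟨hm, hd⟩ := mem_mon.1 hf
    have hfd : f.degree = n := by rw [degree_eq_natDegree hm.ne_zero, hd]
    have h2 : (((h - 1) * f) %ₘ W).degree < f.degree := by
      rw [hfd]
      exact lt_of_lt_of_le (degree_modByMonic_lt _ hWm) hWn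
    rw [mem_mon]
    refine ⟨hm.add_of_left h2, ?_⟩
    unfold sh
    rw [natDegree_add_eq_left_of_degree_lt h2, hd]
  have hinj : Set.InjOn (sh W h) (mon F n : Set F[X]) := by
    intro f _ f' _ heq
    have h2 : W ∣ h * (f - f') := by
      have h3 := dvd_sub (sh_dvd (W := W) (h := h) (f := f)) (sh_dvd (W := W) (h := h) (f := f'))
      rw [heq] at h3
      have h4 : h * f - sh W h f' - (h * f' - sh W h f') = h * (f - f') := by ring
      rwa [h4] at h3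
    have h5 : W ∣ f - f' := hhW.dvd_of_dvd_mul_left h2
    have h6 : ((h - 1) * f) %ₘ W = ((h - 1) * f') %ₘ W := by
      have h7 : W ∣ (h - 1) * f - (h - 1) * f' := by
        rw [← mul_sub]
        exact Dvd.dvd.mul_left h5 _
      rw [← sub_eq_zero, ← sub_modByMonic, modByMonic_eq_zero_iff_dvd hWm]
      exact h7
    unfold sh at heq
    rw [h6] at heq
    exact add_right_cancel heq
  have hsurj : Set.SurjOn (sh W h) (mon F n : Set F[X]) (mon F n : Set F[X]) :=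
    Finset.surjOn_of_injOn_of_card_le _ hmaps hinj le_rfl
  have hperm : ∑ f ∈ mon F n, φ (sh W h f) = ∑ f ∈ mon F n, φ f :=
    Finset.sum_nbij (sh W h) hmaps hinj hsurj fun _ _ => rfl
  have hval : ∀ f ∈ mon F n, φ (sh W h f) = ee (g Q₀) * φ f := by
    intro f _
    rw [← hφh]
    exact (hφW _ _ sh_dvd).symm
  rw [Finset.sum_congr rfl hval, ← Finset.mul_sum] at hperm
  have hne1 : ee (g Q₀) ≠ 1 := by
    intro h2
    apply hg₀
    apply ZMod.injective_stdAddChar (N := ℓ)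
    rw [AddChar.map_zero_eq_one]
    exact h2
  have hfin : (ee (g Q₀) - 1) * ∑ f ∈ mon F n, φ f = 0 := by
    rw [sub_mul, one_mul, hperm, sub_self]
  rcases mul_eq_zero.1 hfin with h2 | h2
  · exact absurd (sub_eq_zero.1 h2) hne1
  · exact h2

end

end Pool.Agent.Helper54.PT
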