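import Pool.Agent.Helper31.TW.St1

/-! Project TW, module PKI: insertion of a loop into a derivation. -/

set_option autoImplicit false

namespace Pool.Agent.Helper62.TW

open Pool.Agent.Helper31.TW
open Symbol

theorem hPKI : StPKI := by
  intro T N _ R U W α β w v y h hβ hW
  -- the loop is inserted at the first state
  have top : ∀ (U₁ : Set (List (Symbol T N))) (α₁ : List (Symbol T N)) (w₁ : List T),
      DU R U₁ α₁ w₁ → β = α₁ → ∃ w' : List T, DU R (U₁ ∪ W) α₁ w' ∧
        ∀ a : T, w'.count a = w₁.count a + v.count a + y.count a := by
    intro U₁ α₁ w₁ h₁ he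
    subst he
    refine ⟨v ++ w₁ ++ y, ?_, fun a => ?_⟩
    · rw [Set.union_comm]
      exact hW U₁ w₁ h₁
    · rw [List.count_append, List.count_append]
      omega
  induction h with
  | nil => exact top _ _ _ DU.nil hβ
  | @term t U α w h ih =>
    rcases hβ with hβ | hβ
    · exact top _ _ _ (DU.term t h) hβ
    · obtain ⟨w', h1, h2⟩ := ih hβ
      refine ⟨t :: w', ?_, fun a => ?_⟩
      · rw [Set.insert_union]
        exact DU.term t h1
      · rw [List.count_cons, List.count_cons, h2 a]
        omega
  | @nonterm r U V α u w hr h1 h2 ih1 ih2 =>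
    rcases hβ with hβ | hβ | hβ
    · exact top _ _ _ (DU.nonterm hr h1 h2) hβ
    · obtain ⟨u', h3, h4⟩ := ih1 hβ
      refine ⟨u' ++ w, ?_, fun a => ?_⟩
      · have h5 := DU.nonterm hr h3 h2
        have h6 : insert (nonterminal r.input :: α) (U ∪ V) ∪ W =
            insert (nonterminal r.input :: α) (U ∪ W ∪ V) := by
          rw [Set.insert_union]
          congr 1
          ext s
          simp only [Set.mem_union]
          tauto
        rw [h6]
        exact h5
      · rw [List.count_append, List.count_append, h4 a]
        omega
    · obtain ⟨w', h3, h4⟩ := ih2 hβ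
      refine ⟨u ++ w', ?_, fun a => ?_⟩
      · have h5 := DU.nonterm hr h1 h3
        have h6 : insert (nonterminal r.input :: α) (U ∪ V) ∪ W =
            insert (nonterminal r.input :: α) (U ∪ (V ∪ W)) := by
          rw [Set.insert_union, Set.union_assoc]
        rw [h6]
        exact h5
      · rw [List.count_append, List.count_append, h4 a]
        omega

end Pool.Agent.Helper62.TW
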