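import Pool.Agent.Helper16.TW.A17
import Pool.Agent.Helper54.PT.DefsE
import Pool.Agent.Helper53.TW.S7b
import Pool.Agent.Helper32.TW.S8a

/-!
# Prime sums for quadratic characters (module S8)
-/

set_option autoImplicit false

namespace Pool.Agent.Helper62.TW

open Polynomial Finset Filter Topology Module
open Pool.Agent.Helper54.PT
open Pool.Agent.Helper16.TW

/-- Statement of module S6. -/
def StS6 : Prop := ∀ d : ℕ, 1 ≤ d → ∃ C : ℝ, 1 ≤ C ∧ ∀ (K : Type) [Field K] [Fintype K]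
    [DecidableEq K], ringChar K ≠ 2 → ∀ f : K[X], Squarefree f → f.natDegree = d →
      |∑ x : K, ((quadraticChar K (f.eval x) : ℤ) : ℝ)| ≤ C * Real.sqrt (Fintype.card K)

/-- Statement of module S7. -/
def StS7 : Prop := ∀ {F : Type} [Field F] [Finite F] {lg : F → ZMod 2} (_ : IsLog 2 lg)
    (M : F[X]) (_ : M ≠ 0) (k : ℕ) (_ : 1 ≤ k) (K : Type) [Field K] [Fintype K] [DecidableEq K]
    [Algebra F K] (_ : finrank F K = k),
    ∑ j ∈ k.divisors, ∑ P ∈ prm F j, (j : ℂ) *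
      (open Classical in if P.1 ∣ M then (0 : ℂ) else ee (sy lg P.1 M)) ^ (k / j) =
    ∑ x : K, ((quadraticChar K (aeval x M) : ℤ) : ℂ)

/-- Statement of module S7b. -/
def StS7b : Prop := ∀ (F : Type) [Field F] [Finite F] (k : ℕ) (_ : 1 ≤ k),
    ∃ (K : Type) (_ : Field K) (_ : Algebra F K), finrank F K = k ∧ Finite K

/-- Statement of module S8a. -/
def StS8a : Prop := ∀ (s : Multiset ℂ) (C r : ℝ) (_ : 1 ≤ C) (_ : 0 < r)
    (_ : ∀ k : ℕ, 1 ≤ k → ‖(s.map fun α => α ^ k).sum‖ ≤ C * r ^ k), ∀ α ∈ s, ‖α‖ ≤ r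

section

variable {F : Type} [Field F]

theorem s8_coprime {P Q : Prm F} (h : P ≠ Q) : IsCoprime P.1 Q.1 := by
  rw [P.2.2.coprime_iff_not_dvd]
  intro h1
  exact h (a17_prm_dvd Q P h1)

theorem s8_dvd_prod (G : Finset (Prm F)) (P : Prm F) (h : P.1 ∣ ∏ Q ∈ G, Q.1) : P ∈ G := by
  obtain ⟨Q, hQ, h1⟩ := (Prime.dvd_finsetProd_iff P.2.2.prime _).1 h
  rw [← a17_prm_dvd Q P h1] at hQ
  exact hQ

theorem s8_squarefree (G : Finset (Prm F)) : Squarefree (∏ Q ∈ G, Q.1) := by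
  refine Finset.squarefree_prod_of_pairwise_isCoprime ?_ fun Q _ => Q.2.2.squarefree
  intro P _ Q _ h
  exact (s8_coprime h).isRelPrime

theorem s8_monic (G : Finset (Prm F)) : (∏ Q ∈ G, Q.1).Monic :=
  monic_prod_of_monic _ _ fun Q _ => Q.2.1

theorem s8_deg (G : Finset (Prm F)) : (∏ Q ∈ G, Q.1).natDegree = ∑ Q ∈ G, Q.1.natDegree :=
  natDegree_prod_of_monic _ _ fun Q _ => Q.2.1

/-- The value at a prime. -/
theorem s8_chr {lg : F → ZMod 2} (hlg : IsLog 2 lg)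
    (hrec : ∀ P Q : Prm F, P ≠ Q → sy lg Q.1 P.1 = sy lg P.1 Q.1) (G : Finset (Prm F))
    (b : ZMod 2) (P : Prm F) :
    chr lg G (fun _ => 1) b P.1 =
      (open Classical in if P.1 ∣ ∏ Q ∈ G, Q.1 then (0 : ℂ) else ee (sy lg P.1 (∏ Q ∈ G, Q.1))) *
        ee (b * (P.1.natDegree : ZMod 2)) := by
  classical
  by_cases h : P.1 ∣ ∏ Q ∈ G, Q.1
  · rw [if_pos h, zero_mul]
    exact chr_of_dvd _ _ _ ⟨P, s8_dvd_prod G P h, dvd_rfl⟩
  · rw [if_neg h]
    have hnot : ∀ Q ∈ G, ¬ P.1 ∣ Q.1 := fun Q hQ h1 => h (h1.trans (dvd_prod_of_mem _ hQ))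
    have hPG : P ∉ G := fun hP => hnot P hP dvd_rfl
    have h2 : ¬ ∃ Q ∈ G, Q.1 ∣ P.1 := by
      rintro ⟨Q, hQ, h3⟩
      rw [a17_prm_dvd P Q h3] at hQ
      exact hPG hQ
    rw [chr_of_not _ _ _ h2, a17_ee_add, sy_prod hlg P.2.1 P.2.2 G (fun Q => Q.1) hnot]
    congr 2
    refine sum_congr rfl fun Q hQ => ?_
    rw [one_mul]
    exact hrec P Q fun h3 => hPG (h3 ▸ hQ)

end

theorem s8_sqrt_pow (q : ℝ) (hq : 0 ≤ q) (k : ℕ) : Real.sqrt (q ^ k) = Real.sqrt q ^ k := by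
  rw [← Real.sqrt_sq (pow_nonneg (Real.sqrt_nonneg q) k), ← pow_mul, mul_comm, pow_mul,
    Real.sq_sqrt hq]

/-- The bound for the coefficients of the logarithmic derivative. -/
theorem s8_lam (h6 : StS6) (h7 : StS7) (h7b : StS7b) {F : Type} [Field F] [Finite F]
    {lg : F → ZMod 2} (hlg : IsLog 2 lg) (hchar : ringChar F ≠ 2)
    (hrec : ∀ P Q : Prm F, P ≠ Q → sy lg Q.1 P.1 = sy lg P.1 Q.1) (G : Finset (Prm F))
    (hG : G.Nonempty) (b : ZMod 2) : ∃ C : ℝ, 1 ≤ C ∧ ∀ k : ℕ, 1 ≤ k →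
      ‖Pool.Agent.Helper16.TW.lam (chr lg G (fun _ => 1) b) k‖ ≤ C * Real.sqrt (Nat.card F) ^ k := by
  classical
  set M : F[X] := ∏ Q ∈ G, Q.1 with hM
  have hMm : M.Monic := s8_monic G
  have hdeg : 1 ≤ M.natDegree := by
    obtain ⟨Q, hQ⟩ := hG
    rw [hM, s8_deg]
    exact (Q.2.2.natDegree_pos).trans_le
      (single_le_sum (f := fun Q : Prm F => Q.1.natDegree) (fun _ _ => Nat.zero_le _) hQ)
  obtain ⟨C, hC, hC2⟩ := h6 M.natDegree hdeg
  refine ⟨C, hC, fun k hk => ?_⟩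
  obtain ⟨K, _, _, hK, hfin⟩ := h7b F k hk
  have : Finite K := hfin
  let _ : Fintype K := Fintype.ofFinite K
  have e1 : Pool.Agent.Helper16.TW.lam (chr lg G (fun _ => 1) b) k =
      (∑ x : K, ((quadraticChar K (aeval x M) : ℤ) : ℂ)) * ee (b * (k : ZMod 2)) := by
    rw [← h7 hlg M hMm.ne_zero k hk K hK, sum_mul, Pool.Agent.Helper16.TW.lam]
    refine sum_congr rfl fun j hj => ?_
    rw [sum_mul]
    refine sum_congr rfl fun P hP => ?_
    have hj' : P.1.natDegree = j := mem_prm.1 hP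
    rw [s8_chr hlg hrec G b P, hj', mul_pow]
    have e2 : ee (b * (j : ZMod 2)) ^ (k / j) = ee (b * (k : ZMod 2)) := by
      have e3 : (k / j) • (b * (j : ZMod 2)) = b * (k : ZMod 2) := by
        have e4 : k / j * j = k := Nat.div_mul_cancel (Nat.dvd_of_mem_divisors hj)
        rw [nsmul_eq_mul]
        have e5 : (k : ZMod 2) = ((k / j : ℕ) : ZMod 2) * (j : ZMod 2) := by
          rw [← Nat.cast_mul, e4]
        rw [e5]
        ring
      rw [← e3]
      exact (AddChar.map_nsmul_eq_pow _ _ _).symm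
    rw [e2, mul_assoc]
  have e6 : ‖Pool.Agent.Helper16.TW.lam (chr lg G (fun _ => 1) b) k‖ =
      |∑ x : K, ((quadraticChar K ((M.map (algebraMap F K)).eval x) : ℤ) : ℝ)| := by
    rw [e1, norm_mul, a17_norm_ee, mul_one, ← Real.norm_eq_abs, ← Complex.norm_real]
    congr 1
    push_cast
    refine sum_congr rfl fun x _ => ?_
    rw [eval_map_algebraMap]
  rw [e6]
  have hsq : Squarefree (M.map (algebraMap F K)) := by
    have h1 : M.Separable := (PerfectField.separable_iff_squarefree).2 (s8_squarefree G)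
    exact (h1.map (f := algebraMap F K)).squarefree
  have hchK : ringChar K ≠ 2 := by
    rw [← Algebra.ringChar_eq F K]
    exact hchar
  have h8 := hC2 K hchK (M.map (algebraMap F K)) hsq (natDegree_map _)
  refine h8.trans (le_of_eq ?_)
  rw [← s8_sqrt_pow _ (Nat.cast_nonneg _)]
  congr 2
  rw [← Nat.card_eq_fintype_card, ← Nat.cast_pow, ← hK]
  exact_mod_cast Module.natCard_eq_pow_finrank (K := F) (V := K)

/-- The prime sums of the quadratic characters. -/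
theorem s8_prime_sum (h6 : StS6) (h7 : StS7) (h7b : StS7b) (h8a : StS8a) {F : Type} [Field F]
    [Finite F] {lg : F → ZMod 2} (hlg : IsLog 2 lg) (hchar : ringChar F ≠ 2)
    (hrec : ∀ P Q : Prm F, P ≠ Q → sy lg Q.1 P.1 = sy lg P.1 Q.1) (G : Finset (Prm F))
    (hG : G.Nonempty) (b : ZMod 2) (d : ℕ) (hd : ∑ Q ∈ G, Q.1.natDegree ≤ d) (k : ℕ)
    (hk : 1 ≤ k) :
    k * ‖∑ P ∈ prm F k, chr lg G (fun _ => 1) b P.1‖ ≤
      d * (Nat.card F * (1 - 1 / (40 * (d + 1) : ℝ))) ^ k + 2 * (Nat.card F : ℝ) ^ (k / 2) := by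
  classical
  have hq3 : (3 : ℝ) ≤ Nat.card F := by
    have h1 : 1 < Nat.card F := Finite.one_lt_card
    have h2 : Nat.card F ≠ 2 := by
      intro h2
      apply hchar
      have : Fintype F := Fintype.ofFinite F
      rw [Nat.card_eq_fintype_card] at h2
      have h3 : ringChar F ∣ 2 := by
        refine ringChar.dvd ?_
        rw [← h2]
        exact FiniteField.cast_card_eq_zero F
      exact (Nat.prime_dvd_prime_iff_eq (CharP.char_is_prime F (ringChar F)) Nat.prime_two).1 h3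
    have h3 : 3 ≤ Nat.card F := by omega
    exact_mod_cast h3
  have hq0 : (0 : ℝ) ≤ Nat.card F := by linarith
  set r : ℝ := Real.sqrt (Nat.card F) with hr
  have hr0 : 0 < r := Real.sqrt_pos.2 (by linarith)
  have hrr : r * r = Nat.card F := Real.mul_self_sqrt hq0
  obtain ⟨Q₀, hQ₀⟩ := hG
  set χ := chr lg G (fun _ => (1 : ZMod 2)) b with hχ
  have habs : ∀ f : F[X], f.Monic → χ f = 0 ∨ ‖χ f‖ = 1 := fun f _ => chr_abs G _ b f
  obtain ⟨s, hs, hs2⟩ := exists_roots (fun m => ∑ f ∈ mon F m, χ f) (Pool.Agent.Helper16.TW.lam χ) d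
    (by rw [a11_mon_zero, sum_singleton]; exact chr_one hlg G _ b)
    (fun m hm => chr_sum hlg G _ b ⟨Q₀, hQ₀, one_ne_zero⟩ m (hd.trans hm))
    (mon_recurrence χ (chr_one hlg G _ b) (chr_mul hlg G _ b))
  obtain ⟨C, hC, hC2⟩ := s8_lam h6 h7 h7b hlg hchar hrec G ⟨Q₀, hQ₀⟩ b
  have hb : ∀ α ∈ s, ‖α‖ ≤ r := h8a s C r hC hr0 fun k hk => by
    rw [← norm_neg, ← hs2 k hk]
    exact hC2 k hk
  refine (a11_main χ habs (fun k hk => sum_prm k hk) k hk).trans (add_le_add_left ?_ _)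
  rw [hs2 k hk, norm_neg]
  refine (a11_norm_sum_le s _ hb k).trans ?_
  refine mul_le_mul (by exact_mod_cast hs) ?_ (pow_nonneg hr0.le _) (Nat.cast_nonneg _)
  refine pow_le_pow_left₀ hr0.le ?_ k
  have hr17 : (1.7 : ℝ) ≤ r := by
    rw [hr]
    refine Real.le_sqrt_of_sq_le ?_
    have h1 : (1.7 : ℝ) ^ 2 ≤ 3 := by norm_num
    exact h1.trans hq3
  have h4 : 1 / (40 * ((d : ℝ) + 1)) ≤ 1 / 40 := by
    apply one_div_le_one_div_of_le (by norm_num)
    have : (0 : ℝ) ≤ d := Nat.cast_nonneg d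
    linarith
  rw [← hrr, mul_assoc]
  refine le_mul_of_one_le_right hr0.le ?_
  have h5 : (39 : ℝ) / 40 ≤ 1 - 1 / (40 * ((d : ℝ) + 1)) := by linarith
  have h6' : (1.7 : ℝ) * (39 / 40) ≤ r * (1 - 1 / (40 * ((d : ℝ) + 1))) :=
    mul_le_mul hr17 h5 (by norm_num) hr0.le
  linarith

/-- S8: prime sums for `ℓ = 2`, from S6, S7, S7b and S8a. -/
theorem pd_prime_sum2_of (h6 : StS6) (h7 : StS7) (h7b : StS7b) (h8a : StS8a)
    {F : Type} [Field F] [Finite F] {σ : Type} [Fintype σ] {lg : F → ZMod 2}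
    (hrec : ∀ P Q : Prm F, P ≠ Q → sy lg Q.1 P.1 = sy lg P.1 Q.1) (R : σ → Prm F)
    (hlg : IsLog 2 lg) (h2 : ringChar F ≠ 2) (hR : Function.Injective R)
    (G : Finset (pd lg hrec R).P) (g : (pd lg hrec R).P → ZMod 2) (β : Option σ → ZMod 2)
    (hne : (∃ p ∈ G, g p ≠ 0) ∨ ∃ r, β (some r) ≠ 0) (d : ℕ)
    (hd : (pd lg hrec R).dg G + ∑ r, (R r).1.natDegree ≤ d) (k : ℕ) (hk : 1 ≤ k) :
    k * ‖∑ p ∈ ((pd lg hrec R).pr k).filter (fun p => p ∉ G),
      ee (∑ p' ∈ G, g p' * (pd lg hrec R).sym p' p + dot β ((pd lg hrec R).xx p))‖ ≤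
      d * (Nat.card F * (1 - 1 / (40 * (d + 1) : ℝ))) ^ k +
        2 * (Nat.card F : ℝ) ^ (k / 2) + d := by
  classical
  have hz2 : ∀ x : ZMod 2, x ≠ 0 → x = 1 := by decide
  -- the set of moduli
  let G1 : Finset (Prm F) := G.map ⟨fun p => p.1, Subtype.val_injective⟩
  let G2 : Finset (Prm F) := (univ : Finset σ).map ⟨R, hR⟩
  let H1 : Finset (Prm F) := (G.filter fun p => g p ≠ 0).map ⟨fun p => p.1, Subtype.val_injective⟩
  let H2 : Finset (Prm F) := ((univ : Finset σ).filter fun r => β (some r) ≠ 0).map ⟨R, hR⟩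
  have hdisj : Disjoint G1 G2 := by
    rw [Finset.disjoint_left]
    intro Q h1 h2
    obtain ⟨p, _, rfl⟩ := mem_map.1 h1
    obtain ⟨r, _, h3⟩ := mem_map.1 h2
    exact p.2 r h3.symm
  have hH1 : H1 ⊆ G1 := map_subset_map.2 (filter_subset _ _)
  have hH2 : H2 ⊆ G2 := map_subset_map.2 (filter_subset _ _)
  have hdisjH : Disjoint H1 H2 := disjoint_of_subset_left hH1 (disjoint_of_subset_right hH2 hdisj)
  have hsum : ∀ φ : Prm F → ZMod 2, ∑ Q ∈ H1 ∪ H2, φ Q =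
      ∑ p ∈ G, g p * φ p.1 + ∑ r, β (some r) * φ (R r) := by
    intro φ
    rw [sum_union hdisjH, sum_map, sum_map, sum_filter, sum_filter]
    congr 1
    · refine sum_congr rfl fun p _ => ?_
      by_cases h : g p = 0
      · rw [if_neg (not_not.2 h), h, zero_mul]
      · rw [if_pos h, hz2 _ h, one_mul]
        rfl
    · refine sum_congr rfl fun r _ => ?_
      by_cases h : β (some r) = 0
      · rw [if_neg (not_not.2 h), h, zero_mul]
      · rw [if_pos h, hz2 _ h, one_mul]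
        rfl
  have hneH : (H1 ∪ H2).Nonempty := by
    rcases hne with ⟨p, hp, h⟩ | ⟨r, h⟩
    · exact ⟨p.1, mem_union_left _ (mem_map.2 ⟨p, mem_filter.2 ⟨hp, h⟩, rfl⟩)⟩
    · exact ⟨R r, mem_union_right _ (mem_map.2 ⟨r, mem_filter.2 ⟨mem_univ _, h⟩, rfl⟩)⟩
  have hdG : ∑ Q ∈ G1 ∪ G2, Q.1.natDegree ≤ d := by
    rw [sum_union hdisj, sum_map, sum_map]
    exact hd
  have hdH : ∑ Q ∈ H1 ∪ H2, Q.1.natDegree ≤ d :=
    (sum_le_sum_of_subset (union_subset_union hH1 hH2)).trans hdG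
  have hmain := s8_prime_sum h6 h7 h7b h8a hlg h2 hrec (H1 ∪ H2) hneH (β none) d hdH k hk
  set χ := chr lg (H1 ∪ H2) (fun _ => (1 : ZMod 2)) (β none) with hχ
  -- the wanted sum as a sum over primes outside the large set
  have hEq : ∑ p ∈ ((pd lg hrec R).pr k).filter (fun p => p ∉ G),
      ee (∑ p' ∈ G, g p' * (pd lg hrec R).sym p' p + dot β ((pd lg hrec R).xx p)) =
      ∑ P ∈ (prm F k).filter (fun P => P ∉ G1 ∪ G2), χ P.1 := by
    refine sum_bij (fun p _ => p.1) ?_ ?_ ?_ ?_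
    · intro p hp
      obtain ⟨h1, h2⟩ := mem_filter.1 hp
      refine mem_filter.2 ⟨mem_prm.2 (((pd lg hrec R).mem_pr k p).1 h1), ?_⟩
      intro h3
      rcases mem_union.1 h3 with h4 | h4
      · obtain ⟨p', h5, h6⟩ := mem_map.1 h4
        have h7 : p' = p := Subtype.ext h6
        rw [h7] at h5
        exact h2 h5
      · obtain ⟨r, _, h6⟩ := mem_map.1 h4
        exact p.2 r h6.symm
    · intro p _ p' _ h
      exact Subtype.ext h
    · intro P hP
      obtain ⟨h1, h2⟩ := mem_filter.1 hP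
      have h3 : ∀ r, P ≠ R r := fun r h => h2 (mem_union_right _
        (mem_map.2 ⟨r, mem_univ _, h.symm⟩))
      refine ⟨⟨P, h3⟩, mem_filter.2 ⟨((pd lg hrec R).mem_pr k _).2 (mem_prm.1 h1), ?_⟩, rfl⟩
      intro h4
      exact h2 (mem_union_left _ (mem_map.2 ⟨_, h4, rfl⟩))
    · intro p hp
      obtain ⟨h1, h2⟩ := mem_filter.1 hp
      rw [hχ, chr_of_not]
      · congr 1
        have e : ∑ Q ∈ H1 ∪ H2, (1 : ZMod 2) * sy lg Q.1 p.1.1 =
            ∑ Q ∈ H1 ∪ H2, sy lg Q.1 p.1.1 := sum_congr rfl fun Q _ => one_mul _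
        rw [e, hsum (fun Q => sy lg Q.1 p.1.1), add_assoc]
        congr 1
        · refine sum_congr rfl fun p' hp' => ?_
          have h3 : p.1 ≠ p'.1 := fun h => h2 (by
            have h7 : p = p' := Subtype.ext h
            rw [h7]; exact hp')
          rw [hrec p.1 p'.1 h3]
          rfl
        · rw [dot, Fintype.sum_option, add_comm]
          congr 1
          refine sum_congr rfl fun r _ => ?_
          rw [hrec p.1 (R r) (p.2 r)]
          rfl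
      · rintro ⟨Q, hQ, h3⟩
        have h4 := a17_prm_dvd p.1 Q h3
        rw [h4] at hQ
        have hQ' := union_subset_union hH1 hH2 hQ
        rcases mem_union.1 hQ' with h5 | h5
        · obtain ⟨p', h6, h7⟩ := mem_map.1 h5
          have h8 : p' = p := Subtype.ext h7
          rw [h8] at h6
          exact h2 h6
        · obtain ⟨r, _, h6⟩ := mem_map.1 h5
          exact p.2 r h6.symm
  -- the primes inside the large set contribute at most `d`
  have hsplit : ∑ P ∈ prm F k, χ P.1 = ∑ P ∈ (prm F k).filter (fun P => P ∉ G1 ∪ G2), χ P.1 +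
      ∑ P ∈ (prm F k).filter (fun P => ¬ P ∉ G1 ∪ G2), χ P.1 :=
    (sum_filter_add_sum_filter_not _ _ _).symm
  have hsmall : (k : ℝ) * ‖∑ P ∈ (prm F k).filter (fun P => ¬ P ∉ G1 ∪ G2), χ P.1‖ ≤ d := by
    have h1 : ‖∑ P ∈ (prm F k).filter (fun P => ¬ P ∉ G1 ∪ G2), χ P.1‖ ≤
        (((prm F k).filter (fun P => ¬ P ∉ G1 ∪ G2)).card : ℝ) := by
      refine (norm_sum_le _ _).trans ?_
      have := sum_le_card_nsmul ((prm F k).filter (fun P => ¬ P ∉ G1 ∪ G2)) (fun P => ‖χ P.1‖) 1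
        fun P _ => by
          rcases chr_abs (lg := lg) (H1 ∪ H2) (fun _ => (1 : ZMod 2)) (β none) P.1 with h | h
          · show ‖χ P.1‖ ≤ 1
            rw [hχ, h, norm_zero]
            exact zero_le_one
          · exact h.le
      rwa [nsmul_eq_mul, mul_one] at this
    have h2 : k * ((prm F k).filter (fun P => ¬ P ∉ G1 ∪ G2)).card ≤ d := by
      refine le_trans ?_ hdG
      calc k * ((prm F k).filter (fun P => ¬ P ∉ G1 ∪ G2)).card
          = ∑ P ∈ (prm F k).filter (fun P => ¬ P ∉ G1 ∪ G2), P.1.natDegree := by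
            rw [mul_comm, ← smul_eq_mul, ← sum_const]
            refine sum_congr rfl fun P hP => ?_
            exact (mem_prm.1 (mem_filter.1 hP).1).symm
        _ ≤ ∑ Q ∈ G1 ∪ G2, Q.1.natDegree := by
            refine sum_le_sum_of_subset fun P hP => ?_
            exact not_not.1 (mem_filter.1 hP).2
    calc (k : ℝ) * ‖∑ P ∈ (prm F k).filter (fun P => ¬ P ∉ G1 ∪ G2), χ P.1‖
        ≤ k * (((prm F k).filter (fun P => ¬ P ∉ G1 ∪ G2)).card : ℝ) :=
          mul_le_mul_of_nonneg_left h1 (Nat.cast_nonneg k)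
      _ ≤ d := by exact_mod_cast h2
  rw [hEq]
  have h9 : ∑ P ∈ (prm F k).filter (fun P => P ∉ G1 ∪ G2), χ P.1 = ∑ P ∈ prm F k, χ P.1 -
      ∑ P ∈ (prm F k).filter (fun P => ¬ P ∉ G1 ∪ G2), χ P.1 := by
    rw [hsplit]; ring
  rw [h9]
  have h10 := norm_sub_le (∑ P ∈ prm F k, χ P.1)
    (∑ P ∈ (prm F k).filter (fun P => ¬ P ∉ G1 ∪ G2), χ P.1)
  have h11 := mul_le_mul_of_nonneg_left h10 (Nat.cast_nonneg (α := ℝ) k)
  rw [mul_add] at h11
  linarith

/-- S8: prime sums for `ℓ = 2`, from S6 and S7 only. -/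
theorem pd_prime_sum2 (h6 : StS6) (h7 : StS7)
    {F : Type} [Field F] [Finite F] {σ : Type} [Fintype σ] {lg : F → ZMod 2}
    (hrec : ∀ P Q : Prm F, P ≠ Q → sy lg Q.1 P.1 = sy lg P.1 Q.1) (R : σ → Prm F)
    (hlg : IsLog 2 lg) (h2 : ringChar F ≠ 2) (hR : Function.Injective R)
    (G : Finset (pd lg hrec R).P) (g : (pd lg hrec R).P → ZMod 2) (β : Option σ → ZMod 2)
    (hne : (∃ p ∈ G, g p ≠ 0) ∨ ∃ r, β (some r) ≠ 0) (d : ℕ)
    (hd : (pd lg hrec R).dg G + ∑ r, (R r).1.natDegree ≤ d) (k : ℕ) (hk : 1 ≤ k) :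
    k * ‖∑ p ∈ ((pd lg hrec R).pr k).filter (fun p => p ∉ G),
      ee (∑ p' ∈ G, g p' * (pd lg hrec R).sym p' p + dot β ((pd lg hrec R).xx p))‖ ≤
      d * (Nat.card F * (1 - 1 / (40 * (d + 1) : ℝ))) ^ k +
        2 * (Nat.card F : ℝ) ^ (k / 2) + d :=
  pd_prime_sum2_of h6 h7 (fun F _ _ k hk => exists_extension F k hk)
    (fun s C r hC hr h => abs_le_of_power_sums' s C r hC hr h) hrec R hlg h2 hR G g β hne d hd k hk

end Pool.Agent.Helper62.TW
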